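import Pool.Agent.Run7.h858.CP.Basic

/-!
# MP_ae5b4e_an: pieces F (frame equation) and R (relations)
-/

set_option autoImplicit false

namespace Pool.Agent.Run7.h921.CP

open Pool.Agent.H858.CP
open scoped ContDiff

theorem comp {Λ : ℕ → ℝ → Fin 3 → ℝ} (h : Jet3 Λ) (i : ℕ) (t : ℝ) (j : Fin 3) :
    HasDerivAt (fun s => Λ i s j) (Λ (i + 1) t j) t := (hasDerivAt_pi.1 (h i t)) j

theorem det0 {Λ : ℕ → ℝ → Fin 3 → ℝ} (h : Jet3 Λ)
    (hd : ∀ u, det3 (Λ 0 u) (Λ 1 u) (Λ 2 u) = 1) (u : ℝ) :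
    det3 (Λ 0 u) (Λ 1 u) (Λ 3 u) = 0 := by
  have x := fun j => comp h 0 u j
  have y := fun j => comp h 1 u j
  have z := fun j => comp h 2 u j
  have h1 := (((x 0).mul (((y 1).mul (z 2)).sub ((y 2).mul (z 1)))).sub
    ((x 1).mul (((y 0).mul (z 2)).sub ((y 2).mul (z 0))))).add
    ((x 2).mul (((y 0).mul (z 1)).sub ((y 1).mul (z 0))))
  have h2 : HasDerivAt (fun s => det3 (Λ 0 s) (Λ 1 s) (Λ 2 s)) 0 u := by
    simp_rw [hd]
    exact hasDerivAt_const _ _
  have h3 := h1.unique h2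
  simp only [Nat.reduceAdd, zero_add, Pi.mul_apply, Pi.sub_apply] at h3
  unfold det3
  linear_combination h3

theorem smooth_of_jet {f : ℕ → ℝ → ℝ} (hf : JetR f) (i : ℕ) : ContDiff ℝ ∞ (f i) := by
  rw [contDiff_infty]
  intro n
  induction n generalizing i with
  | zero =>
    rw [Nat.cast_zero, contDiff_zero]
    exact continuous_iff_continuousAt.2 fun t => (hf i t).continuousAt
  | succ n ih =>
    have h1 : deriv (f i) = f (i + 1) := funext fun t => (hf i t).deriv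
    rw [Nat.cast_add, Nat.cast_one, contDiff_succ_iff_deriv]
    refine ⟨fun t => (hf i t).differentiableAt, fun h => ?_, ?_⟩
    · exact absurd h (by exact_mod_cast WithTop.natCast_ne_top n)
    · rw [h1]
      exact ih (i + 1)

theorem jet_of_smooth {p : ℝ → ℝ} (hp : ContDiff ℝ ∞ p) : JetR (fun i => iteratedDeriv i p) := by
  intro i t
  have h1 : Differentiable ℝ (iteratedDeriv i p) :=
    hp.differentiable_iteratedDeriv i (by exact_mod_cast WithTop.coe_lt_top i)
  have h2 := (h1 t).hasDerivAt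
  rw [← iteratedDeriv_succ] at h2
  exact h2

theorem smooth_comp {Λ : ℕ → ℝ → Fin 3 → ℝ} (h : Jet3 Λ) (i : ℕ) (j : Fin 3) :
    ContDiff ℝ ∞ (fun t => Λ i t j) :=
  smooth_of_jet (f := fun i t => Λ i t j) (fun i t => comp h i t j) i

theorem smooth_det {x y z : ℝ → Fin 3 → ℝ} (hx : ∀ j, ContDiff ℝ ∞ (fun t => x t j))
    (hy : ∀ j, ContDiff ℝ ∞ (fun t => y t j)) (hz : ∀ j, ContDiff ℝ ∞ (fun t => z t j)) :
    ContDiff ℝ ∞ (fun t => det3 (x t) (y t) (z t)) := by
  unfold det3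
  exact (((hx 0).mul (((hy 1).mul (hz 2)).sub ((hy 2).mul (hz 1)))).sub
    ((hx 1).mul (((hy 0).mul (hz 2)).sub ((hy 2).mul (hz 0))))).add
    ((hx 2).mul (((hy 0).mul (hz 1)).sub ((hy 1).mul (hz 0))))

theorem pF : PieceF := by
  intro Λ h hd
  have s := fun i j => smooth_comp h i j
  refine ⟨fun i => iteratedDeriv i (fun u => -det3 (Λ 0 u) (Λ 3 u) (Λ 2 u)),
    fun i => iteratedDeriv i (fun u => -det3 (Λ 3 u) (Λ 1 u) (Λ 2 u)),
    jet_of_smooth (smooth_det (s 0) (s 3) (s 2)).neg,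
    jet_of_smooth (smooth_det (s 3) (s 1) (s 2)).neg, fun u i => ?_⟩
  have h1 := hd u
  have h2 := det0 h hd u
  simp only [iteratedDeriv_zero]
  unfold det3 at h1 h2 ⊢
  fin_cases i
  · simp only [Fin.zero_eta]
    linear_combination (-(Λ 3 u 0)) * h1 + Λ 2 u 0 * h2
  · simp only [Fin.mk_one]
    linear_combination (-(Λ 3 u 1)) * h1 + Λ 2 u 1 * h2
  · simp only [Fin.reduceFinMk]
    linear_combination (-(Λ 3 u 2)) * h1 + Λ 2 u 2 * h2

theorem pR : PieceR := by
  intro hT Λ h hd u hI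
  obtain ⟨m, ε, hε, hm⟩ := hI
  have hc : ∀ (i : ℕ) (t : ℝ) (j : Fin 3),
      HasDerivAt (fun s => Λ i (u + s) j) (Λ (i + 1) (u + t) j) t :=
    fun i t j => (comp h i (u + t) j).comp_const_add u t
  have hA : JetR (fun i t => cA Λ u (Λ i (u + t))) := by
    intro i t
    unfold cA det3
    have y := fun j => hc i t j
    have h1 := (((((y 1).mul_const (Λ 2 u 2)).sub ((y 2).mul_const (Λ 2 u 1))).const_mul
      (Λ 0 u 0)).sub
      ((((y 0).mul_const (Λ 2 u 2)).sub ((y 2).mul_const (Λ 2 u 0))).const_mul (Λ 0 u 1))).add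
      ((((y 0).mul_const (Λ 2 u 1)).sub ((y 1).mul_const (Λ 2 u 0))).const_mul (Λ 0 u 2))
    exact h1
  have hB : JetR (fun i t => cB Λ u (Λ i (u + t))) := by
    intro i t
    unfold cB det3
    have z := fun j => hc i t j
    have h1 := (((((z 2).const_mul (Λ 1 u 1)).sub ((z 1).const_mul (Λ 1 u 2))).const_mul
      (Λ 0 u 0)).sub
      ((((z 2).const_mul (Λ 1 u 0)).sub ((z 0).const_mul (Λ 1 u 2))).const_mul (Λ 0 u 1))).add
      ((((z 1).const_mul (Λ 1 u 0)).sub ((z 0).const_mul (Λ 1 u 1))).const_mul (Λ 0 u 2))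
    exact h1
  have key := hT _ _ hA hB ?_ ?_ ?_ ?_ ?_ ?_ ?_ m ε hε ?_
  · simp only [add_zero] at key
    exact ⟨key.1, key.2.1, key.2.2⟩
  · simp only [add_zero]
    unfold cA det3
    ring
  · simp only [add_zero]
    exact hd u
  · simp only [add_zero]
    unfold cA det3
    ring
  · simp only [add_zero]
    unfold cB det3
    ring
  · simp only [add_zero]
    unfold cB det3
    ring
  · simp only [add_zero]
    exact hd u
  · simp only [add_zero]
    exact det0 h hd u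
  · intro t ht0 ht
    have := hm t ht0 ht
    simp only [← sub_eq_add_neg]
    exact this

end Pool.Agent.Run7.h921.CP
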